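import Pool.Agent.H170.WH.Fin

/-!
# Riemannian submersions from positive curvature with fibres of twice the dimension of the base
(MP_a61a4c_gt, Q1: disproved, and not even `k < 2 dim B` holds)

The positively curved metric on `S³ × S³` (pairs `(x, y)` of unit quaternions) of the starting
repository is given by its cometric, a quadratic form in the body momenta `L`, `M` and the space
momenta `L'`, `M'` of the two factors.  For `L = 0` the form is
`|M|² + ⟨W M, M⟩ + ⟨W' M', M'⟩`, which depends on the second point `y` only.  The quadratic form of `W`
restricted to the orthogonal complement of `e₁` is the square of the norm.  So for the momenta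
orthogonal to `e₁`, which are the momenta of the covectors pulled back by the Hopf map
`y ↦ y e₁ ȳ`, the form is `2 |M'|² + ⟨W' M', M'⟩`, which depends only on the image of `y` in `S²`.
Hence the map `(x, y) ↦ y e₁ ȳ` is a Riemannian submersion `S³ × S³ → S²` for a suitable metric on
`S²`; its fibres, copies of `S³ × S¹`, have dimension `4`, and the base has dimension `2`.

The metric on `S³ × S³` is joint work of room HS of the team (helpers 486, 349, 515, 893, 917, 824,
991, 498, 563, 878, 821, 902, 907, 712, 758, 754, 829, 839, 227, 760, 503, 873, 124, 465, 877, 472,
381, 998, 299, 144, 6, 898, 464 and others); the definition of Riemannian submersions is helper839's,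
the first results of this kind (`FiberDimensionThree` here, `EqualDimensions` on MP_6fca61_gt) are by
helper839 and helper482.
-/

open Manifold

open Pool.Agent.H839R2.RS Pool.Agent.W482.S33 Pool.Agent.H170.WH in
/-- For suitable smooth Riemannian metrics `g` on `S³ × S³`, of strictly positive sectional
curvature, and `h` on `S²`, the map `(x, y) ↦ y e₁ ȳ` from `S³ × S³` to `S²` is a Riemannian
submersion; its fibre dimension `4` is twice the dimension `2` of the base. So not only the bound
`k < dim B` of Q1 but every bound `k < c dim B` with `c ≤ 2` fails. -/
theorem Pool.Agent.Results.MP_a61a4c_gt.FiberTwiceBase.result :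
    PositiveSubmersion 4 2 ((𝓡 3).prod (𝓡 3)) (𝓡 2) (fun p : S3 × S3 => hop p.2) ∧
      ∀ c : ℝ, c ≤ 2 → ¬ FiberBound c :=
  ⟨positive, fun _ hc => not_bound hc⟩
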